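import Pool.Agent.LibDQ20.Z1
import Pool.Agent.LibDQ20.W3

/-!
Infinite-dimensional compact convex sets whose metric entropy is small along some scales are Hilbert cubes, in arbitrary
metric linear spaces.

`E` is a real vector space with an F-norm (a `NormedAddCommGroup` with continuous scalar multiplication and
`‖t • x‖ ≤ ‖x‖` for `|t| ≤ 1`; neither complete nor locally convex), `K` a compact convex set whose affine hull is
infinite-dimensional. Each of the following four hypotheses implies that `K` is homeomorphic to `[0,1]^ℕ`.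

(1) For every `ε > 0` there are `N ≥ 1`, `m` and radii `r k` such that `K` is covered by `2 ^ k` closed balls of radius
`r k` for `k = m` and for `N ≤ k ≤ 2 ^ m`, `N * r m ≤ ε` and `∑_{k = N}^{2 ^ m} r k / k ≤ ε`.

(2) For every `ε > 0` there is `m ≥ 1` such that `K` is covered by `2 ^ m` closed balls of radius `ε / m`.

(3) `K` is covered, for every `k`, by `2 ^ k` closed balls of radius `r k`, and `∑ r k / (k + 1)` converges.

(4) (The general form, which contains Keller's theorem and the three others.) For every `ε > 0` there are finitely many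
points `q i` (`i < n`) of `K` and `0 < δ ≤ ε` such that the convex hull of the `q i` is `δ`-dense in `K`, and convex
combinations of `n` vectors of `K - K` of norm at most `2 δ` have norm at most `ε`.
-/

namespace Pool.Agent.Results.MP_7cd4a5_gt.EntropyScales

open Pool.Agent.LibEN20 Pool.Agent.LibAR71 Pool.Agent.LibDQ20
open scoped Pointwise

theorem result (E : Type) [NormedAddCommGroup E] [Module ℝ E] [ContinuousSMul ℝ E]
    (hF : ∀ (t : ℝ) (x : E), |t| ≤ 1 → ‖t • x‖ ≤ ‖x‖)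
    (K : Set E) (hK : IsCompact K) (hc : Convex ℝ K) (hinf : ¬ FiniteDimensional ℝ (vectorSpan ℝ K))
    (h : (∀ ε : ℝ, 0 < ε → ∃ (N m : ℕ) (r : ℕ → ℝ), 1 ≤ N ∧ N * r m ≤ ε ∧
          ∑ k ∈ Finset.Icc N (2 ^ m), r k / k ≤ ε ∧
          ∀ k : ℕ, (k = m ∨ (N ≤ k ∧ k ≤ 2 ^ m)) →
            ∃ s : Finset E, s.card ≤ 2 ^ k ∧ K ⊆ ⋃ y ∈ s, Metric.closedBall y (r k)) ∨
      (∀ ε : ℝ, 0 < ε → ∃ m : ℕ, 1 ≤ m ∧
          ∃ s : Finset E, s.card ≤ 2 ^ m ∧ K ⊆ ⋃ y ∈ s, Metric.closedBall y (ε / m)) ∨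
      (∃ r : ℕ → ℝ, (Summable fun k : ℕ => r k / (k + 1)) ∧
          ∀ k : ℕ, ∃ s : Finset E, s.card ≤ 2 ^ k ∧ K ⊆ ⋃ y ∈ s, Metric.closedBall y (r k)) ∨
      (∀ ε : ℝ, 0 < ε → ∃ (n : ℕ) (q : Fin n → E), (∀ i, q i ∈ K) ∧ ∃ δ : ℝ, 0 < δ ∧ δ ≤ ε ∧
          (∀ z ∈ K, ∃ y ∈ convexHull ℝ (Set.range q), ‖z - y‖ ≤ δ) ∧
          ∀ (w : Fin n → ℝ) (v : Fin n → E), (∀ i, 0 ≤ w i) → ∑ i, w i = 1 → (∀ i, v i ∈ K - K) →
            (∀ i, ‖v i‖ ≤ 2 * δ) → ‖∑ i, w i • v i‖ ≤ ε)) :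
    Nonempty (K ≃ₜ (ℕ → unitInterval)) := by
  have hne : K.Nonempty := by
    by_contra h
    rw [Set.not_nonempty_iff_eq_empty] at h
    subst h
    exact hinf (by rw [vectorSpan_empty]; infer_instance)
  have hcov : ∀ (k : ℕ) (ρ : ℝ), (∃ s : Finset E, s.card ≤ 2 ^ k ∧ K ⊆ ⋃ y ∈ s, Metric.closedBall y ρ) → Cov K k ρ := by
    rintro k ρ ⟨s, h1, h2⟩
    refine ⟨s, h1, fun x hx => ?_⟩
    have := h2 hx
    simp only [Set.mem_iUnion, Metric.mem_closedBall] at this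
    obtain ⟨y, hy, hd⟩ := this
    exact ⟨y, hy, by rwa [dist_eq_norm] at hd⟩
  refine cube_of_appr hF hK hc hinf ?_
  rcases h with h | h | h | h
  · refine appr_of_crit hF hK hc hinf fun ε hε => ?_
    obtain ⟨N, m, r, h1, h2, h3, h4⟩ := h ε hε
    exact ⟨N, m, r, h1, hcov _ _ (h4 m (Or.inl rfl)), fun k hk hk' => hcov _ _ (h4 k (Or.inr ⟨hk, hk'⟩)), h2, h3⟩
  · refine appr_of_crit hF hK hc hinf fun ε hε => crit_of_liminf (fun δ hδ => ?_) hε
    obtain ⟨m, h1, h2⟩ := h δ hδ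
    exact ⟨m, h1, hcov _ _ h2⟩
  · obtain ⟨r, hr, h⟩ := h
    exact appr_of_crit hF hK hc hinf fun ε hε => crit_of_summable hne hr (fun k => hcov _ _ (h k)) hε
  · exact appr_of_weak hK hinf h

end Pool.Agent.Results.MP_7cd4a5_gt.EntropyScales
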