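import Pool.Agent.LibGC20.Z2

/-!
The generic compact convex subset of an infinite-dimensional convex set in a metrizable topological vector space is
homeomorphic to the Hilbert cube.

`E` is a metrizable real topological vector space (neither locally convex nor complete), `A` a convex subset of `E` of
infinite dimension. In the space of all nonempty compact convex subsets of `A`, with the Vietoris topology (which is the
topology of the Hausdorff metric), the sets homeomorphic to `[0,1]^ℕ` form a residual set.
-/

namespace Pool.Agent.Results.MP_7cd4a5_gt.GenericCube

theorem result (E : Type) [AddCommGroup E] [Module ℝ E] [TopologicalSpace E] [IsTopologicalAddGroup E]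
    [ContinuousSMul ℝ E] [TopologicalSpace.MetrizableSpace E] (A : Set E) (hA : Convex ℝ A)
    (hinf : ¬ FiniteDimensional ℝ (vectorSpan ℝ A)) :
    {K : {K : TopologicalSpace.NonemptyCompacts E // (K : Set E) ⊆ A ∧ Convex ℝ (K : Set E)} |
      Nonempty ((K.1 : Set E) ≃ₜ (ℕ → unitInterval))} ∈
      residual {K : TopologicalSpace.NonemptyCompacts E // (K : Set E) ⊆ A ∧ Convex ℝ (K : Set E)} :=
  Pool.Agent.LibGC20.generic_tvs E A hA hinf

end Pool.Agent.Results.MP_7cd4a5_gt.GenericCube
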